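import Mathlib

/-!
Subtractive closure does not commute with ideal products in `S₀[X,Y,Z]`.

For every additively cancellative, zerosumfree, nontrivial commutative semiring `S₀`
(for instance `S₀ = ℕ`), the principal ideal `I` of `S₀[X,Y,Z]` generated by `1 + X` satisfies
`scl I * scl I ≠ scl (I * I)`.  The witness is `X ^ 4 + 4 X + 3`.
-/

set_option autoImplicit false

namespace Pool.Agent.Results.MP_05a6d5_al.SclProduct

/-- The subtractive closure of an ideal `I` of a commutative semiring `R`:
the set of all `h` such that `h + i ∈ I` for some `i ∈ I`. -/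
def scl {R : Type*} [CommSemiring R] (I : Ideal R) : Ideal R where
  carrier := {h | ∃ i ∈ I, h + i ∈ I}
  add_mem' := by
    rintro a b ⟨i, hi, hai⟩ ⟨j, hj, hbj⟩
    refine ⟨i + j, I.add_mem hi hj, ?_⟩
    have := I.add_mem hai hbj
    have e : a + b + (i + j) = (a + i) + (b + j) := by ring
    rw [e]; exact this
  zero_mem' := ⟨0, I.zero_mem, by simp⟩
  smul_mem' := by
    rintro c a ⟨i, hi, hai⟩
    refine ⟨c * i, I.mul_mem_left c hi, ?_⟩
    have := I.mul_mem_left c hai
    rw [mul_add] at this
    simpa [smul_eq_mul] using this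

theorem mem_scl {R : Type*} [CommSemiring R] {I : Ideal R} {h : R} :
    h ∈ scl I ↔ ∃ i ∈ I, h + i ∈ I := Iff.rfl

/-- A semiring is zerosumfree if `a + b = 0` implies `a = 0` and `b = 0`. -/
def Zerosumfree (R : Type*) [CommSemiring R] : Prop :=
  ∀ a b : R, a + b = 0 → a = 0 ∧ b = 0

section

variable {R : Type*} [CommSemiring R]

theorem Zerosumfree.sum_eq_zero (hz : Zerosumfree R) {ι : Type*} (s : Finset ι) (f : ι → R)
    (h : ∑ i ∈ s, f i = 0) : ∀ i ∈ s, f i = 0 := by
  classical
  intro i hi
  rw [← Finset.add_sum_erase s f hi] at h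
  exact (hz _ _ h).1

/-- sum of the coefficients of even degree -/
noncomputable def ev (q : Polynomial R) : R := q.sum fun i a => if Even i then a else 0

/-- sum of the coefficients of odd degree -/
noncomputable def od (q : Polynomial R) : R := q.sum fun i a => if Even i then 0 else a

theorem ev_eq (q : Polynomial R) (n : ℕ) (hn : q.natDegree < n) :
    ev q = ∑ i ∈ Finset.range n, if Even i then q.coeff i else 0 := by
  unfold ev
  rw [Polynomial.sum_over_range' q _ n hn]
  intro i; simp

theorem od_eq (q : Polynomial R) (n : ℕ) (hn : q.natDegree < n) :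
    od q = ∑ i ∈ Finset.range n, if Even i then 0 else q.coeff i := by
  unfold od
  rw [Polynomial.sum_over_range' q _ n hn]
  intro i; simp

theorem ev_add (p q : Polynomial R) : ev (p + q) = ev p + ev q := by
  unfold ev
  refine Polynomial.sum_add_index _ _ _ (by simp) ?_
  intro i a b; split_ifs <;> simp

theorem od_add (p q : Polynomial R) : od (p + q) = od p + od q := by
  unfold od
  refine Polynomial.sum_add_index _ _ _ (by simp) ?_
  intro i a b; split_ifs <;> simp

theorem ev_zero : ev (0 : Polynomial R) = 0 := by simp [ev]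

theorem od_zero : od (0 : Polynomial R) = 0 := by simp [od]

theorem ev_C_mul (c : R) (q : Polynomial R) : ev (Polynomial.C c * q) = c * ev q := by
  have h1 : (Polynomial.C c * q).natDegree < q.natDegree + 1 :=
    Nat.lt_succ_of_le (Polynomial.natDegree_C_mul_le c q)
  rw [ev_eq _ _ h1, ev_eq q (q.natDegree + 1) (Nat.lt_succ_self _), Finset.mul_sum]
  refine Finset.sum_congr rfl ?_
  intro i _
  split_ifs <;> simp

theorem od_C_mul (c : R) (q : Polynomial R) : od (Polynomial.C c * q) = c * od q := by
  have h1 : (Polynomial.C c * q).natDegree < q.natDegree + 1 :=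
    Nat.lt_succ_of_le (Polynomial.natDegree_C_mul_le c q)
  rw [od_eq _ _ h1, od_eq q (q.natDegree + 1) (Nat.lt_succ_self _), Finset.mul_sum]
  refine Finset.sum_congr rfl ?_
  intro i _
  split_ifs <;> simp

theorem ev_X_mul (q : Polynomial R) : ev (Polynomial.X * q) = od q := by
  have h1 : (Polynomial.X * q).natDegree < q.natDegree + 2 := by
    have := Polynomial.natDegree_mul_le (p := (Polynomial.X : Polynomial R)) (q := q)
    have h2 := Polynomial.natDegree_X_le (R := R)
    omega
  rw [ev_eq _ _ h1, od_eq q (q.natDegree + 1) (Nat.lt_succ_self _)]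
  rw [Finset.sum_range_succ' _ (q.natDegree + 1)]
  simp only [Polynomial.coeff_X_mul_zero, Polynomial.coeff_X_mul, ite_self, add_zero]
  refine Finset.sum_congr rfl ?_
  intro i _
  by_cases h : Even i
  · have : ¬ Even (i + 1) := by
      rw [Nat.even_add_one]; simpa using h
    simp [h, this]
  · have : Even (i + 1) := by
      rw [Nat.even_add_one]; exact h
    simp [h, this]

theorem od_X_mul (q : Polynomial R) : od (Polynomial.X * q) = ev q := by
  have h1 : (Polynomial.X * q).natDegree < q.natDegree + 2 := by
    have := Polynomial.natDegree_mul_le (p := (Polynomial.X : Polynomial R)) (q := q)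
    have h2 := Polynomial.natDegree_X_le (R := R)
    omega
  rw [od_eq _ _ h1, ev_eq q (q.natDegree + 1) (Nat.lt_succ_self _)]
  rw [Finset.sum_range_succ' _ (q.natDegree + 1)]
  simp only [Polynomial.coeff_X_mul_zero, Polynomial.coeff_X_mul, ite_self, add_zero]
  refine Finset.sum_congr rfl ?_
  intro i _
  by_cases h : Even i
  · have : ¬ Even (i + 1) := by
      rw [Nat.even_add_one]; simpa using h
    simp [h, this]
  · have : Even (i + 1) := by
      rw [Nat.even_add_one]; exact h
    simp [h, this]

/-- the ideal of polynomials whose even part and odd part have the same coefficient sum -/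
noncomputable def K (R : Type*) [CommSemiring R] : Ideal (Polynomial R) where
  carrier := {q | ev q = od q}
  add_mem' := by
    intro a b ha hb
    simp only [Set.mem_ofPred_eq] at *
    rw [ev_add, od_add, ha, hb]
  zero_mem' := by simp [ev_zero, od_zero]
  smul_mem' := by
    intro c q hq
    simp only [Set.mem_ofPred_eq, smul_eq_mul] at *
    have key : ∀ (n : ℕ) (a : R) (q : Polynomial R), ev q = od q →
        ev (Polynomial.C a * Polynomial.X ^ n * q) = od (Polynomial.C a * Polynomial.X ^ n * q) := by
      intro n
      induction n with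
      | zero =>
        intro a q hq
        simp only [pow_zero, mul_one]
        rw [ev_C_mul, od_C_mul, hq]
      | succ n ih =>
        intro a q hq
        have e : Polynomial.C a * Polynomial.X ^ (n + 1) * q
            = Polynomial.C a * Polynomial.X ^ n * (Polynomial.X * q) := by ring
        rw [e]
        apply ih
        rw [ev_X_mul, od_X_mul, hq]
    induction c using Polynomial.induction_on' with
    | add p r hp hr =>
      rw [add_mul, ev_add, od_add, hp, hr]
    | monomial n a =>
      rw [← Polynomial.C_mul_X_pow_eq_monomial]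
      exact key n a q hq

theorem mem_K {q : Polynomial R} : q ∈ K R ↔ ev q = od q := Iff.rfl

/-- finite representations of elements of a product of ideals -/
theorem exists_repr {S : Type*} [CommSemiring S] (I J : Ideal S) (x : S) (hx : x ∈ I * J) :
    ∃ l : List (S × S), (∀ p ∈ l, p.1 ∈ I ∧ p.2 ∈ J) ∧ x = (l.map fun p => p.1 * p.2).sum := by
  induction hx using Submodule.mul_induction_on' with
  | mem_mul_mem m hm n hn => exact ⟨[(m, n)], by simp [hm, hn], by simp⟩
  | add x hx y hy ihx ihy =>
    obtain ⟨l1, h1, e1⟩ := ihx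
    obtain ⟨l2, h2, e2⟩ := ihy
    refine ⟨l1 ++ l2, ?_, ?_⟩
    · intro p hp
      rcases List.mem_append.1 hp with h | h
      · exact h1 p h
      · exact h2 p h
    · rw [e1, e2]; simp

theorem list_sum_eq_zero (hz : Zerosumfree R) (l : List R) (h : l.sum = 0) :
    ∀ x ∈ l, x = 0 := by
  induction l with
  | nil => simp
  | cons a l ih =>
    rw [List.sum_cons] at h
    obtain ⟨h1, h2⟩ := hz _ _ h
    intro x hx
    rcases List.mem_cons.1 hx with rfl | hx
    · exact h1
    · exact ih h2 x hx

theorem sq_eq_zero (hz : Zerosumfree R) (g h : Polynomial R) (hg : g ∈ K R) (hh : h ∈ K R)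
    (hv : ∀ m, m ≠ 0 → m ≠ 1 → m ≠ 4 → (g * h).coeff m = 0) :
    (g.coeff 0 * h.coeff 0) ^ 2 = 0 := by
  have hv' : ∀ i j, i + j ≠ 0 → i + j ≠ 1 → i + j ≠ 4 → g.coeff i * h.coeff j = 0 := by
    intro i j h0 h1 h4
    have := hv (i + j) h0 h1 h4
    rw [Polynomial.coeff_mul] at this
    exact hz.sum_eq_zero _ _ this (i, j) (by simp)
  -- the two expansions
  have e1 : g.coeff 1 * h.coeff 0 = g.coeff 0 * h.coeff 0 + g.coeff 4 * h.coeff 0 := by
    have hK := mem_K.1 hg
    rw [ev_eq g (g.natDegree + 5) (by omega), od_eq g (g.natDegree + 5) (by omega)] at hK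
    have hK2 := congrArg (fun x => x * h.coeff 0) hK
    simp only [Finset.sum_mul] at hK2
    have hl : ∑ i ∈ Finset.range (g.natDegree + 5), (if Even i then g.coeff i else 0) * h.coeff 0
        = ∑ i ∈ ({0, 4} : Finset ℕ), (if Even i then g.coeff i else 0) * h.coeff 0 := by
      symm
      apply Finset.sum_subset
      · intro i hi
        simp only [Finset.mem_insert, Finset.mem_singleton] at hi
        rw [Finset.mem_range]; omega
      · intro i _ hi
        simp only [Finset.mem_insert, Finset.mem_singleton, not_or] at hi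
        split_ifs with he
        · apply hv' i 0
          · simpa using hi.1
          · intro h1
            simp only [add_zero] at h1
            subst h1
            simp at he
          · simpa using hi.2
        · simp
    have hr : ∑ i ∈ Finset.range (g.natDegree + 5), (if Even i then 0 else g.coeff i) * h.coeff 0
        = ∑ i ∈ ({1} : Finset ℕ), (if Even i then 0 else g.coeff i) * h.coeff 0 := by
      symm
      apply Finset.sum_subset
      · intro i hi
        simp only [Finset.mem_singleton] at hi
        rw [Finset.mem_range]; omega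
      · intro i _ hi
        simp only [Finset.mem_singleton] at hi
        split_ifs with he
        · simp
        · apply hv' i 0
          · intro h1
            simp only [add_zero] at h1
            subst h1
            simp at he
          · simpa using hi
          · intro h1
            simp only [add_zero] at h1
            subst h1
            exact he (by decide)
    rw [hl, hr] at hK2
    simp only [Finset.sum_singleton, Finset.sum_insert (show (0 : ℕ) ∉ ({4} : Finset ℕ) by simp)]
      at hK2
    have h4 : Even 4 := by decide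
    simp only [Even.zero, if_true, h4, Nat.not_even_one, if_false] at hK2
    exact hK2.symm
  have e2 : g.coeff 0 * h.coeff 1 = g.coeff 0 * h.coeff 0 + g.coeff 0 * h.coeff 4 := by
    have hK := mem_K.1 hh
    rw [ev_eq h (h.natDegree + 5) (by omega), od_eq h (h.natDegree + 5) (by omega)] at hK
    have hK2 := congrArg (fun x => g.coeff 0 * x) hK
    simp only [Finset.mul_sum] at hK2
    have hl : ∑ i ∈ Finset.range (h.natDegree + 5), g.coeff 0 * (if Even i then h.coeff i else 0)
        = ∑ i ∈ ({0, 4} : Finset ℕ), g.coeff 0 * (if Even i then h.coeff i else 0) := by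
      symm
      apply Finset.sum_subset
      · intro i hi
        simp only [Finset.mem_insert, Finset.mem_singleton] at hi
        rw [Finset.mem_range]; omega
      · intro i _ hi
        simp only [Finset.mem_insert, Finset.mem_singleton, not_or] at hi
        split_ifs with he
        · apply hv' 0 i
          · simpa using hi.1
          · intro h1
            simp only [zero_add] at h1
            subst h1
            simp at he
          · simpa using hi.2
        · simp
    have hr : ∑ i ∈ Finset.range (h.natDegree + 5), g.coeff 0 * (if Even i then 0 else h.coeff i)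
        = ∑ i ∈ ({1} : Finset ℕ), g.coeff 0 * (if Even i then 0 else h.coeff i) := by
      symm
      apply Finset.sum_subset
      · intro i hi
        simp only [Finset.mem_singleton] at hi
        rw [Finset.mem_range]; omega
      · intro i _ hi
        simp only [Finset.mem_singleton] at hi
        split_ifs with he
        · simp
        · apply hv' 0 i
          · intro h1
            simp only [zero_add] at h1
            subst h1
            simp at he
          · simpa using hi
          · intro h1
            simp only [zero_add] at h1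
            subst h1
            exact he (by decide)
    rw [hl, hr] at hK2
    simp only [Finset.sum_singleton, Finset.sum_insert (show (0 : ℕ) ∉ ({4} : Finset ℕ) by simp)]
      at hK2
    have h4 : Even 4 := by decide
    simp only [Even.zero, if_true, h4, Nat.not_even_one, if_false] at hK2
    exact hK2.symm
  have e3 : g.coeff 1 * h.coeff 1 = 0 := hv' 1 1 (by norm_num) (by norm_num) (by norm_num)
  have e4 : (g.coeff 1 * h.coeff 0) * (g.coeff 0 * h.coeff 1) = 0 := by
    have : (g.coeff 1 * h.coeff 0) * (g.coeff 0 * h.coeff 1)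
        = (g.coeff 0 * h.coeff 0) * (g.coeff 1 * h.coeff 1) := by ring
    rw [this, e3, mul_zero]
  rw [e1, e2] at e4
  have e5 : (g.coeff 0 * h.coeff 0) ^ 2 +
      (g.coeff 0 * h.coeff 0 * (g.coeff 0 * h.coeff 4)
        + g.coeff 4 * h.coeff 0 * (g.coeff 0 * h.coeff 0 + g.coeff 0 * h.coeff 4)) = 0 := by
    rw [← e4]; ring
  exact (hz _ _ e5).1

theorem not_nilpotent_natCast (hz : Zerosumfree R) [Nontrivial R] (n : ℕ) (hn : n ≠ 0) :
    ¬ IsNilpotent ((n : ℕ) : R) := by
  rintro ⟨k, hk⟩
  rw [← Nat.cast_pow] at hk
  obtain ⟨m, hm⟩ : ∃ m, n ^ k = 1 + m := by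
    refine ⟨n ^ k - 1, ?_⟩
    have : 1 ≤ n ^ k := Nat.one_le_pow _ _ (Nat.pos_of_ne_zero hn)
    omega
  rw [hm, Nat.cast_add, Nat.cast_one] at hk
  exact one_ne_zero (hz _ _ hk).1

theorem not_mem_K_mul_K (hz : Zerosumfree R) [Nontrivial R] :
    (Polynomial.X ^ 4 + 4 * Polynomial.X + 3 : Polynomial R) ∉ K R * K R := by
  intro hmem
  obtain ⟨l, hl, he⟩ := exists_repr _ _ _ hmem
  have hcoeff : ∀ m, (Polynomial.X ^ 4 + 4 * Polynomial.X + 3 : Polynomial R).coeff m
      = (l.map fun p => (p.1 * p.2).coeff m).sum := by
    intro m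
    rw [he, ← Polynomial.lcoeff_apply, map_list_sum, List.map_map]
    rfl
  have hc4 : (4 * Polynomial.X : Polynomial R) = Polynomial.C 4 * Polynomial.X := by
    rw [map_ofNat]
  have hc3 : (3 : Polynomial R) = Polynomial.C 3 := (map_ofNat Polynomial.C 3).symm
  have hF : ∀ m, m ≠ 0 → m ≠ 1 → m ≠ 4 →
      (Polynomial.X ^ 4 + 4 * Polynomial.X + 3 : Polynomial R).coeff m = 0 := by
    intro m h0 h1 h4
    rw [hc4, hc3]
    simp only [Polynomial.coeff_add, Polynomial.coeff_X_pow, Polynomial.coeff_C_mul,
      Polynomial.coeff_X, Polynomial.coeff_C]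
    simp [h0, h4, Ne.symm h1]
  have hF0 : (Polynomial.X ^ 4 + 4 * Polynomial.X + 3 : Polynomial R).coeff 0 = 3 := by
    rw [hc4, hc3]
    simp [Polynomial.coeff_X_pow]
  have hnil : IsNilpotent (3 : R) := by
    rw [← hF0, hcoeff 0]
    have hall : ∀ x ∈ l.map (fun p => (p.1 * p.2).coeff 0), IsNilpotent x := by
      intro x hx
      rw [List.mem_map] at hx
      obtain ⟨p, hp, rfl⟩ := hx
      refine ⟨2, ?_⟩
      rw [Polynomial.mul_coeff_zero]
      apply sq_eq_zero hz p.1 p.2 (hl p hp).1 (hl p hp).2
      intro m h0 h1 h4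
      have h5 := hcoeff m
      rw [hF m h0 h1 h4] at h5
      apply list_sum_eq_zero hz _ h5.symm
      rw [List.mem_map]
      exact ⟨p, hp, rfl⟩
    clear hcoeff he hl
    generalize l.map (fun p => (p.1 * p.2).coeff 0) = L at hall ⊢
    induction L with
    | nil => simp
    | cons a L ih =>
      rw [List.sum_cons]
      apply Commute.isNilpotent_add (Commute.all _ _)
      · exact hall a (by simp)
      · apply ih
        intro x hx
        exact hall x (by simp [hx])
  have := not_nilpotent_natCast hz 3 (by norm_num)
  apply this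
  exact_mod_cast hnil

end

open MvPolynomial in
/-- The projection `S₀[X,Y,Z] → S₀[X]`. -/
noncomputable def proj (R : Type*) [CommSemiring R] :
    MvPolynomial (Fin 3) R →ₐ[R] Polynomial R :=
  MvPolynomial.aeval ![Polynomial.X, 0, 0]

open MvPolynomial in
theorem result (S₀ : Type*) [CommSemiring S₀] [Nontrivial S₀] [IsCancelAdd S₀]
    (hz : Zerosumfree S₀) :
    scl (Ideal.span {1 + X 0} : Ideal (MvPolynomial (Fin 3) S₀)) *
        scl (Ideal.span {1 + X 0} : Ideal (MvPolynomial (Fin 3) S₀)) ≠
      scl ((Ideal.span {1 + X 0} : Ideal (MvPolynomial (Fin 3) S₀)) *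
        (Ideal.span {1 + X 0} : Ideal (MvPolynomial (Fin 3) S₀))) := by
  intro heq
  set I : Ideal (MvPolynomial (Fin 3) S₀) := Ideal.span {1 + X 0} with hI
  -- the witness
  have hsq : (1 + X 0 : MvPolynomial (Fin 3) S₀) * (1 + X 0) ∈ I * I :=
    Ideal.mul_mem_mul (Ideal.subset_span rfl) (Ideal.subset_span rfl)
  have hmem : (X 0 ^ 4 + 4 * X 0 + 3 : MvPolynomial (Fin 3) S₀) ∈ scl (I * I) := by
    rw [mem_scl]
    refine ⟨2 * X 0 * ((1 + X 0) * (1 + X 0)), Ideal.mul_mem_left _ _ hsq, ?_⟩
    have e : (X 0 ^ 4 + 4 * X 0 + 3 : MvPolynomial (Fin 3) S₀)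
        + 2 * X 0 * ((1 + X 0) * (1 + X 0)) = (3 + X 0 ^ 2) * ((1 + X 0) * (1 + X 0)) := by ring
    rw [e]
    exact Ideal.mul_mem_left _ _ hsq
  rw [← heq] at hmem
  -- push to one variable
  have hle : scl I ≤ Ideal.comap (proj S₀) (K S₀) := by
    have hIK : I ≤ Ideal.comap (proj S₀) (K S₀) := by
      rw [hI, Ideal.span_le]
      intro x hx
      rw [Set.mem_singleton_iff] at hx
      subst hx
      simp only [SetLike.mem_coe, Ideal.mem_comap, mem_K]
      have : (proj S₀) (1 + X 0) = 1 + Polynomial.X := by
        simp [proj]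
      rw [this]
      have h1 : ((1 : Polynomial S₀) + Polynomial.X).natDegree < 2 := by
        have h2 := Polynomial.natDegree_add_le (1 : Polynomial S₀) Polynomial.X
        have h3 := Polynomial.natDegree_X_le (R := S₀)
        simp at h2
        omega
      rw [ev_eq _ 2 h1, od_eq _ 2 h1]
      simp [Finset.sum_range_succ, Polynomial.coeff_one, Polynomial.coeff_X]
    intro h hh
    obtain ⟨i, hi, hhi⟩ := mem_scl.1 hh
    have h1 := hIK hi
    have h2 := hIK hhi
    rw [Ideal.mem_comap, mem_K] at h1 h2 ⊢
    rw [map_add, ev_add, od_add, h1] at h2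
    exact add_right_cancel h2
  have hprod : ∀ x, x ∈ scl I * scl I → proj S₀ x ∈ K S₀ * K S₀ := by
    intro x hx
    induction hx using Submodule.mul_induction_on' with
    | mem_mul_mem m hm n hn =>
      rw [map_mul]
      exact Ideal.mul_mem_mul (hle hm) (hle hn)
    | add x hx y hy ihx ihy =>
      rw [map_add]
      exact Ideal.add_mem _ ihx ihy
  have hfin := hprod _ hmem
  have hpf : proj S₀ (X 0 ^ 4 + 4 * X 0 + 3) = Polynomial.X ^ 4 + 4 * Polynomial.X + 3 := by
    simp [proj]
  rw [hpf] at hfin
  exact not_mem_K_mul_K hz hfin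

/-- The instance `S₀ = ℕ`: the negated form of the question. -/
theorem nat_instance : ∃ I J : Ideal (MvPolynomial (Fin 3) ℕ), scl I * scl J ≠ scl (I * J) :=
  ⟨_, _, result ℕ (fun a b h => ⟨by omega, by omega⟩)⟩

end Pool.Agent.Results.MP_05a6d5_al.SclProduct
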